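import Mathlib
set_option autoImplicit false
set_option linter.all false

namespace Pool.Agent.H471R2.Kr

/-- the field with two elements -/
abbrev k := ZMod 2

section
variable {M N : Type*} [AddCommGroup M] [Module k M] [AddCommGroup N] [Module k N]

/-- `a, b` are square zero and annihilate each other. -/
structure KM (a b : M →ₗ[k] M) : Prop where
  aa : ∀ x, a (a x) = 0
  bb : ∀ x, b (b x) = 0
  ab : ∀ x, a (b x) = 0
  ba : ∀ x, b (a x) = 0

theorem KM.swap {a b : M →ₗ[k] M} (h : KM a b) : KM b a := ⟨h.bb, h.aa, h.ba, h.ab⟩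

/-- indecomposable, in terms of idempotents -/
def Ind (a b : M →ₗ[k] M) : Prop :=
  Nontrivial M ∧ ∀ e : M →ₗ[k] M, (∀ x, e (a x) = a (e x)) → (∀ x, e (b x) = b (e x)) →
    (∀ x, e (e x) = e x) → (∀ x, e x = 0) ∨ (∀ x, e x = x)

theorem Ind.swap {a b : M →ₗ[k] M} (h : Ind a b) : Ind b a :=
  ⟨h.1, fun e ha hb he => h.2 e hb ha he⟩

/-- isomorphism -/
def Iso (a b : M →ₗ[k] M) (a' b' : N →ₗ[k] N) : Prop :=
  ∃ e : M ≃ₗ[k] N, (∀ x, e (a x) = a' (e x)) ∧ (∀ x, e (b x) = b' (e x))

theorem Iso.symm {a b : M →ₗ[k] M} {a' b' : N →ₗ[k] N} (h : Iso a b a' b') : Iso a' b' a b := by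
  obtain ⟨e, h1, h2⟩ := h
  refine ⟨e.symm, ?_, ?_⟩
  · intro x
    apply e.injective
    rw [h1]; simp
  · intro x
    apply e.injective
    rw [h2]; simp

theorem Iso.trans {L : Type*} [AddCommGroup L] [Module k L] {a b : M →ₗ[k] M} {a' b' : N →ₗ[k] N}
    {a'' b'' : L →ₗ[k] L} (h : Iso a b a' b') (h' : Iso a' b' a'' b'') : Iso a b a'' b'' := by
  obtain ⟨e, h1, h2⟩ := h
  obtain ⟨e', h3, h4⟩ := h'
  refine ⟨e.trans e', ?_, ?_⟩
  · intro x
    simp only [LinearEquiv.trans_apply, h1, h3]
  · intro x
    simp only [LinearEquiv.trans_apply, h2, h4]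

theorem Iso.swap {a b : M →ₗ[k] M} {a' b' : N →ₗ[k] N} (h : Iso a b a' b') : Iso b a b' a' := by
  obtain ⟨e, h1, h2⟩ := h
  exact ⟨e, h2, h1⟩

theorem Ind.of_iso {a b : M →ₗ[k] M} {a' b' : N →ₗ[k] N} (h : Iso a b a' b') (hM : Ind a b) :
    Ind a' b' := by
  obtain ⟨e, h1, h2⟩ := h
  obtain ⟨hn, hI⟩ := hM
  refine ⟨e.symm.toEquiv.nontrivial, ?_⟩
  intro f fa fb ff
  have h1' : ∀ y, e.symm (a' y) = a (e.symm y) := by
    intro y; apply e.injective; rw [h1]; simp
  have h2' : ∀ y, e.symm (b' y) = b (e.symm y) := by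
    intro y; apply e.injective; rw [h2]; simp
  rcases hI (e.symm.toLinearMap ∘ₗ f ∘ₗ e.toLinearMap) (by
    intro x
    simp only [LinearMap.comp_apply, LinearEquiv.coe_coe, h1, fa, h1']) (by
    intro x
    simp only [LinearMap.comp_apply, LinearEquiv.coe_coe, h2, fb, h2']) (by
    intro x
    simp only [LinearMap.comp_apply, LinearEquiv.coe_coe, LinearEquiv.apply_symm_apply, ff]) with h | h
  · left
    intro y
    have := h (e.symm y)
    simp only [LinearMap.comp_apply, LinearEquiv.coe_coe, LinearEquiv.apply_symm_apply] at this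
    exact e.symm.map_eq_zero_iff.1 this
  · right
    intro y
    have := h (e.symm y)
    simp only [LinearMap.comp_apply, LinearEquiv.coe_coe, LinearEquiv.apply_symm_apply] at this
    exact e.symm.injective this

/-- splitting criterion -/
theorem split {a b : M →ₗ[k] M} {a' b' : N →ₗ[k] N} (hM : Ind a b) [Nontrivial N]
    (f : N →ₗ[k] M) (g : M →ₗ[k] N) (fa : ∀ x, f (a' x) = a (f x)) (fb : ∀ x, f (b' x) = b (f x))
    (ga : ∀ x, g (a x) = a' (g x)) (gb : ∀ x, g (b x) = b' (g x))
    (hbij : Function.Bijective (g ∘ₗ f)) : Iso a b a' b' := by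
  let h : N ≃ₗ[k] N := LinearEquiv.ofBijective (g ∘ₗ f) hbij
  have hh : ∀ x, g (f x) = h x := fun x => rfl
  have ha : ∀ x, h.symm (a' x) = a' (h.symm x) := by
    intro x
    apply h.injective
    rw [LinearEquiv.apply_symm_apply, ← hh, fa, ga, hh, LinearEquiv.apply_symm_apply]
  have hb : ∀ x, h.symm (b' x) = b' (h.symm x) := by
    intro x
    apply h.injective
    rw [LinearEquiv.apply_symm_apply, ← hh, fb, gb, hh, LinearEquiv.apply_symm_apply]
  have hsymm : ∀ x, h.symm (g (f x)) = x := by
    intro x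
    rw [hh, LinearEquiv.symm_apply_apply]
  rcases hM.2 (f ∘ₗ h.symm.toLinearMap ∘ₗ g) (by
    intro x
    simp only [LinearMap.comp_apply, LinearEquiv.coe_coe, ga, ha, fa]) (by
    intro x
    simp only [LinearMap.comp_apply, LinearEquiv.coe_coe, gb, hb, fb]) (by
    intro x
    simp only [LinearMap.comp_apply, LinearEquiv.coe_coe, hsymm]) with h0 | h0
  · exfalso
    obtain ⟨y, hy⟩ := exists_ne (0 : N)
    apply hy
    have := congrArg (fun z => h.symm (g z)) (h0 (f y))
    simp only [LinearMap.comp_apply, LinearEquiv.coe_coe, hsymm, map_zero] at this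
    exact this
  · have hg : Function.Bijective g := by
      constructor
      · intro x y hxy
        rw [← h0 x, ← h0 y]
        simp only [LinearMap.comp_apply, hxy]
      · intro y
        obtain ⟨x, hx⟩ := hbij.2 y
        exact ⟨f x, hx⟩
    exact ⟨LinearEquiv.ofBijective g hg, ga, gb⟩

end

section pairs
variable {T S : Type*} [AddCommGroup T] [Module k T] [AddCommGroup S] [Module k S]

/-- the operator of a Kronecker pair -/
def op (A : T →ₗ[k] S) : T × S →ₗ[k] T × S := LinearMap.inr k T S ∘ₗ A ∘ₗ LinearMap.fst k T S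

@[simp] theorem op_apply (A : T →ₗ[k] S) (x : T × S) : op A x = (0, A x.1) := rfl

theorem op_KM (A B : T →ₗ[k] S) : KM (op A) (op B) := by
  constructor <;> intro x <;> simp

end pairs

/-- the maps of the pair `I n` -/
def IA (n : ℕ) : (Fin (n + 1) → k) →ₗ[k] (Fin n → k) := LinearMap.funLeft k k Fin.succ
def IB (n : ℕ) : (Fin (n + 1) → k) →ₗ[k] (Fin n → k) := LinearMap.funLeft k k Fin.castSucc

@[simp] theorem IA_apply (n : ℕ) (u : Fin (n + 1) → k) (j : Fin n) : IA n u j = u j.succ := rfl
@[simp] theorem IB_apply (n : ℕ) (u : Fin (n + 1) → k) (j : Fin n) : IB n u j = u j.castSucc := rfl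

/-- the maps of the pair `P n` -/
def PA (n : ℕ) : (Fin n → k) →ₗ[k] (Fin (n + 1) → k) where
  toFun u := Fin.cons 0 u
  map_add' u v := by
    funext i
    refine Fin.cases ?_ (fun j => ?_) i <;> simp
  map_smul' c u := by
    funext i
    refine Fin.cases ?_ (fun j => ?_) i <;> simp
def PB (n : ℕ) : (Fin n → k) →ₗ[k] (Fin (n + 1) → k) where
  toFun u := Fin.snoc u 0
  map_add' u v := by
    funext i
    refine Fin.lastCases ?_ (fun j => ?_) i <;> simp
  map_smul' c u := by
    funext i
    refine Fin.lastCases ?_ (fun j => ?_) i <;> simp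

theorem PA_apply (n : ℕ) (u : Fin n → k) : PA n u = Fin.cons 0 u := rfl
theorem PB_apply (n : ℕ) (u : Fin n → k) : PB n u = Fin.snoc u 0 := rfl

section
variable {M : Type*} [AddCommGroup M] [Module k M]

theorem k_cases (c : k) : c = 0 ∨ c = 1 := by revert c; decide

theorem add_self_k (x : M) : x + x = 0 := by
  have : (2 : k) • x = x + x := two_smul k x
  rw [← this]
  have h2 : (2 : k) = 0 := rfl
  rw [h2, zero_smul]

theorem neg_k (x : M) : -x = x := by
  rw [neg_eq_iff_add_eq_zero]; exact add_self_k x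

theorem eq_of_add_k {x y : M} (h : x + y = 0) : x = y := by
  rw [eq_neg_of_add_eq_zero_left h, neg_k]

/-- chains -/
def Q (a b : M →ₗ[k] M) (n : ℕ) : Prop :=
  ∃ x : ℕ → M, a (x 0) = 0 ∧ b (x 0) ≠ 0 ∧ (∀ i, i < n → a (x (i + 1)) = b (x i)) ∧ b (x n) = 0

/-- the I-case -/
theorem I_case [Finite M] {a b : M →ₗ[k] M} (hK : KM a b) (hM : Ind a b) (hQ : ∃ n, Q a b n) :
    ∃ n, 1 ≤ n ∧ Iso a b (op (IA n)) (op (IB n)) := by
  classical
  obtain ⟨x, hx0, hxb, hx, hxn⟩ := Nat.find_spec hQ
  set n := Nat.find hQ with hn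
  have hmin : ∀ m, m < n → ¬ Q a b m := fun m hm => Nat.find_min hQ hm
  have hn1 : 1 ≤ n := by
    by_contra h0
    have : n = 0 := by omega
    rw [this] at hxn
    exact hxb hxn
  refine ⟨n, hn1, ?_⟩
  -- the subspace U
  let U : Submodule k (Fin n → M) :=
    { carrier := {w | ∃ y : ℕ → M, y 0 = 0 ∧ y n = 0 ∧ ∀ j : Fin n, w j = a (y (j + 1)) + b (y j)}
      zero_mem' := ⟨fun _ => 0, rfl, rfl, fun j => by simp⟩
      add_mem' := by
        rintro w w' ⟨y, h1, h2, h3⟩ ⟨y', h1', h2', h3'⟩
        refine ⟨fun i => y i + y' i, by simp [h1, h1'], by simp [h2, h2'], fun j => ?_⟩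
        rw [Pi.add_apply, h3, h3', map_add, map_add]
        abel
      smul_mem' := by
        rintro c w ⟨y, h1, h2, h3⟩
        refine ⟨fun i => c • y i, by simp [h1], by simp [h2], fun j => ?_⟩
        rw [Pi.smul_apply, h3, map_smul, map_smul, smul_add] }
  let j0 : Fin n := ⟨0, hn1⟩
  have hv : (Pi.single j0 (a (x 1)) : Fin n → M) ∉ U := by
    rintro ⟨y, h1, h2, h3⟩
    have e0 : a (x 1) = a (y 1) := by
      have := h3 j0
      rw [Pi.single_eq_same] at this
      simp only [j0, zero_add, h1, map_zero, add_zero] at this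
      exact this
    have e1 : ∀ j, 1 ≤ j → j < n → a (y (j + 1)) = b (y j) := by
      intro j hj hjn
      have := h3 ⟨j, hjn⟩
      rw [Pi.single_eq_of_ne (by
        intro h
        have := congrArg Fin.val h
        simp only [j0] at this
        omega)] at this
      exact eq_of_add_k this.symm
    have hb0 : b (x 0) = a (x 1) := (hx 0 hn1).symm
    apply hmin (n - 1) (by omega)
    refine ⟨fun i => if i = 0 then x 0 else y i, by simpa using hx0, by simpa using hxb, ?_, ?_⟩
    · intro i hi
      simp only [Nat.add_eq_zero_iff, one_ne_zero, and_false, if_false]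
      by_cases hi0 : i = 0
      · rw [if_pos hi0, hi0, zero_add, ← e0, hb0]
      · rw [if_neg hi0]
        exact e1 i (by omega) (by omega)
    · by_cases hn2 : n - 1 = 0
      · simp only [hn2, if_true]
        have : n = 1 := by omega
        rw [hb0, e0]
        rw [this] at h2
        rw [h2, map_zero]
      · simp only [hn2, if_false]
        rw [← e1 (n - 1) (by omega) (by omega)]
        have : n - 1 + 1 = n := by omega
        rw [this, h2, map_zero]
  obtain ⟨Φ, hΦv, hΦU⟩ := Submodule.exists_le_ker_of_notMem hv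
  -- covectors
  let φ : ℕ → (M →ₗ[k] k) := fun j => if h : j < n then Φ ∘ₗ LinearMap.single k (fun _ : Fin n => M) ⟨j, h⟩ else 0
  have hφ : ∀ j (h : j < n) (m : M), φ j m = Φ (Pi.single ⟨j, h⟩ m) := by
    intro j h m
    simp only [φ, dif_pos h]
    rfl
  have hφc : ∀ j, j + 1 < n → ∀ m, φ j (a m) = φ (j + 1) (b m) := by
    intro j hj m
    rw [hφ j (by omega), hφ (j + 1) hj]
    have hmem : (Pi.single ⟨j, by omega⟩ (a m) + Pi.single ⟨j + 1, hj⟩ (b m) : Fin n → M) ∈ U := by
      refine ⟨fun i => if i = j + 1 then m else 0, by simp, ?_, ?_⟩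
      · change (if n = j + 1 then m else 0) = 0
        rw [if_neg (by omega)]
      · intro i
        rw [Pi.add_apply]
        by_cases h1 : (i : ℕ) = j
        · have hi : i = ⟨j, by omega⟩ := Fin.ext h1
          rw [hi, Pi.single_eq_same, Pi.single_eq_of_ne (by
            intro h; have := congrArg Fin.val h; simp at this)]
          simp
        · by_cases h2 : (i : ℕ) = j + 1
          · have hi : i = ⟨j + 1, hj⟩ := Fin.ext h2
            rw [hi, Pi.single_eq_same, Pi.single_eq_of_ne (by
              intro h; have := congrArg Fin.val h; simp at this)]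
            simp
          · rw [Pi.single_eq_of_ne (by
              intro h; exact h1 (congrArg Fin.val h)), Pi.single_eq_of_ne (by
              intro h; exact h2 (congrArg Fin.val h))]
            have h3 : ¬ (i : ℕ) + 1 = j + 1 := by omega
            simp [h2, h3, h1]
    have h0 : Φ (Pi.single ⟨j, by omega⟩ (a m) + Pi.single ⟨j + 1, hj⟩ (b m)) = 0 := hΦU hmem
    rw [map_add] at h0
    exact eq_of_add_k h0
  have hφ1 : φ 0 (a (x 1)) = 1 := by
    rw [hφ 0 hn1]
    rcases k_cases (Φ (Pi.single ⟨0, hn1⟩ (a (x 1)))) with h | h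
    · exact absurd h hΦv
    · exact h
  -- ψ
  let ψ : ℕ → (M →ₗ[k] k) := fun i => if i = 0 then φ 0 ∘ₗ b else φ (i - 1) ∘ₗ a
  have hψs : ∀ i m, ψ (i + 1) m = φ i (a m) := fun i m => by simp [ψ]
  have hψb : ∀ i, i < n → ∀ m, ψ i m = φ i (b m) := by
    intro i hi m
    cases i with
    | zero => simp [ψ]
    | succ i => rw [hψs, hφc i hi]
  have rec1 : ∀ i l, i < n → l < n → ψ (i + 1) (x (l + 1)) = ψ i (x l) := by
    intro i l hi hl
    rw [hψs, hx l hl, hψb i hi]
  have bd0 : ∀ i, ψ (i + 1) (x 0) = 0 := by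
    intro i
    rw [hψs, hx0, map_zero]
  have bdn : ∀ i, i < n → ψ i (x n) = 0 := by
    intro i hi
    rw [hψb i hi, hxn, map_zero]
  have h00 : ψ 0 (x 0) = 1 := by
    have := rec1 0 0 (by omega) (by omega)
    rw [← this, hψs]
    exact hφ1
  have hdiag : ∀ i, i ≤ n → ψ i (x i) = 1 := by
    intro i
    induction i with
    | zero => intro _; exact h00
    | succ i ih => intro h; rw [rec1 i i (by omega) (by omega)]; exact ih (by omega)
  have hshift : ∀ d i l, i + d ≤ n → l + d ≤ n → ψ (i + d) (x (l + d)) = ψ i (x l) := by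
    intro d
    induction d with
    | zero => intro i l _ _; rfl
    | succ d ih =>
      intro i l h1 h2
      rw [← Nat.add_assoc, ← Nat.add_assoc, rec1 (i + d) (l + d) (by omega) (by omega)]
      exact ih i l (by omega) (by omega)
  have hlow : ∀ i l, l < i → i ≤ n → ψ i (x l) = 0 := by
    intro i l h1 h2
    have := hshift l (i - l) 0 (by omega) (by omega)
    rw [Nat.sub_add_cancel h1.le, Nat.zero_add] at this
    rw [this]
    obtain ⟨m, hm⟩ : ∃ m, i - l = m + 1 := ⟨i - l - 1, by omega⟩
    rw [hm]; exact bd0 m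
  have hup : ∀ i l, i < l → l ≤ n → ψ i (x l) = 0 := by
    intro i l h1 h2
    have := hshift (n - l) i l (by omega) (by omega)
    rw [← this]
    have e : l + (n - l) = n := by omega
    rw [e]
    exact bdn _ (by omega)
  -- the maps
  let f : (Fin (n + 1) → k) × (Fin n → k) →ₗ[k] M :=
    LinearMap.coprod (∑ i : Fin (n + 1), (LinearMap.proj i : (Fin (n + 1) → k) →ₗ[k] k).smulRight (x i))
      (∑ j : Fin n, (LinearMap.proj j : (Fin n → k) →ₗ[k] k).smulRight (a (x (j + 1))))
  have hf : ∀ u w, f (u, w) = (∑ i : Fin (n + 1), u i • x i) + ∑ j : Fin n, w j • a (x (j + 1)) := by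
    intro u w
    simp [f, LinearMap.sum_apply]
  let g : M →ₗ[k] (Fin (n + 1) → k) × (Fin n → k) :=
    LinearMap.prod (LinearMap.pi (fun i => ψ i)) (LinearMap.pi (fun j => φ j))
  have hg : ∀ m, g m = (fun i : Fin (n + 1) => ψ i m, fun j : Fin n => φ j m) := fun m => rfl
  haveI : Nontrivial ((Fin (n + 1) → k) × (Fin n → k)) := inferInstance
  apply split hM f g
  · rintro ⟨u, w⟩
    rw [op_apply, hf, hf, map_add, map_sum, map_sum]
    simp only [map_smul, hK.aa, smul_zero, Finset.sum_const_zero, add_zero, Pi.zero_apply, zero_smul,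
      zero_add, IA_apply]
    rw [Fin.sum_univ_succ]
    simp [hx0]
  · rintro ⟨u, w⟩
    rw [op_apply, hf, hf, map_add, map_sum, map_sum]
    simp only [map_smul, hK.ba, smul_zero, Finset.sum_const_zero, add_zero, Pi.zero_apply, zero_smul,
      zero_add, IB_apply]
    rw [Fin.sum_univ_castSucc]
    simp only [Fin.val_castSucc, Fin.val_last, hxn, smul_zero, add_zero]
    apply Finset.sum_congr rfl
    intro j _
    rw [hx j j.2]
  · intro m
    rw [hg, hg, op_apply]
    refine Prod.ext ?_ ?_
    · funext i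
      simp only [Pi.zero_apply]
      refine Fin.cases ?_ (fun j => ?_) i
      · simp [ψ, hK.ba]
      · rw [Fin.val_succ, hψs, hK.aa, map_zero]
    · funext j
      simp only [IA_apply, Fin.val_succ, hψs]
  · intro m
    rw [hg, hg, op_apply]
    refine Prod.ext ?_ ?_
    · funext i
      simp only [Pi.zero_apply]
      refine Fin.cases ?_ (fun j => ?_) i
      · simp [ψ, hK.bb]
      · rw [Fin.val_succ, hψs, hK.ab, map_zero]
    · funext j
      simp only [IB_apply, Fin.val_castSucc, hψb j j.2]
  · have hinj : Function.Injective (g ∘ₗ f) := by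
      rw [← LinearMap.ker_eq_bot, LinearMap.ker_eq_bot']
      rintro ⟨u, w⟩ h
      rw [LinearMap.comp_apply, hg, hf] at h
      have h1 := congrArg Prod.fst h
      have h2 := congrArg Prod.snd h
      simp only [Prod.fst_zero, Prod.snd_zero] at h1 h2
      have hψx : ∀ (i : Fin (n + 1)) (l : Fin (n + 1)), ψ i (x l) = if l = i then 1 else 0 := by
        intro i l
        by_cases h : l = i
        · rw [if_pos h, h]; exact hdiag i (by omega)
        · rw [if_neg h]
          rcases lt_or_gt_of_ne (fun h' => h (Fin.ext h')) with h' | h'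
          · exact hlow i l h' (by omega)
          · exact hup i l h' (by omega)
      have hψa : ∀ (i : Fin (n + 1)) (m : M), ψ i (a m) = 0 := by
        intro i m
        refine Fin.cases ?_ (fun j => ?_) i
        · simp [ψ, hK.ba]
        · rw [Fin.val_succ, hψs, hK.aa, map_zero]
      have hu : u = 0 := by
        funext i
        have h3 := congrFun h1 i
        simp only [map_add, map_sum, map_smul, hψx, hψa, smul_zero, Finset.sum_const_zero, add_zero,
          smul_eq_mul, mul_ite, mul_one, mul_zero, Finset.sum_ite_eq', Finset.mem_univ, if_true] at h3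
        exact h3
      have hw : w = 0 := by
        funext j
        have h3 := congrFun h2 j
        rw [hu] at h3
        simp only [Pi.zero_apply, zero_smul, Finset.sum_const_zero, zero_add, map_sum, map_smul] at h3
        have hφa : ∀ l : Fin n, φ j (a (x (l + 1))) = if l = j then 1 else 0 := by
          intro l
          rw [← hψs]
          have := hψx j.succ l.succ
          simp only [Fin.val_succ, Fin.succ_inj] at this
          exact this
        simp only [hφa, smul_eq_mul, mul_ite, mul_one, mul_zero, Finset.sum_ite_eq', Finset.mem_univ,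
          if_true] at h3
        exact h3
      rw [hu, hw]; rfl
    exact Finite.injective_iff_bijective.1 hinj

end

end Pool.Agent.H471R2.Kr
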