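import Pool.Agent.H471R2.Kr.Reg
set_option autoImplicit false
set_option linter.all false

open Polynomial

namespace Pool.Agent.H471R2.Kr

theorem unit_k {u : k[X]} (h : IsUnit u) : u = 1 := by
  obtain ⟨c, hc, rfl⟩ := Polynomial.isUnit_iff.1 h
  rcases k_cases c with h0 | h0
  · rw [h0] at hc; exact absurd hc not_isUnit_zero
  · rw [h0]; exact C_1

theorem assoc_k {p q : k[X]} (h : Associated p q) : p = q := by
  obtain ⟨u, hu⟩ := h
  rw [← hu, unit_k u.isUnit, mul_one]

theorem eq_of_irr_dvd {p q : k[X]} (hp : Irreducible p) (hq : Irreducible q) (h : p ∣ q) : p = q :=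
  assoc_k ((hp.dvd_irreducible_iff_associated hq).1 h)

theorem irr_X : Irreducible (X : k[X]) := Polynomial.irreducible_X
theorem irr_X1 : Irreducible (1 + X : k[X]) := by
  have : (1 + X : k[X]) = X - C 1 := by
    rw [C_1]
    have h2 : (1 : k[X]) = -1 := (neg_k (1 : k[X])).symm
    rw [h2, sub_neg_eq_add, add_comm]
    rw [← h2]
  rw [this]
  exact Polynomial.irreducible_X_sub_C 1

theorem mulX_inj {p : k[X]} (hp : Irreducible p) (hX : ¬ p ∣ X) (n : ℕ) :
    Function.Injective (mulX (p ^ n)) := by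
  rw [← LinearMap.ker_eq_bot, LinearMap.ker_eq_bot']
  intro y hy
  obtain ⟨g, rfl⟩ := Ideal.Quotient.mk_surjective y
  rw [mulX_mk, Ideal.Quotient.eq_zero_iff_mem, Ideal.mem_span_singleton] at hy
  rw [Ideal.Quotient.eq_zero_iff_mem, Ideal.mem_span_singleton]
  have hc : IsCoprime (p ^ n) X := by
    apply IsCoprime.pow_left
    exact hp.coprime_iff_not_dvd.2 hX
  exact hc.dvd_of_dvd_mul_left hy

/-- **Classification.** -/
theorem classify {M : Type*} [AddCommGroup M] [Module k M] [Finite M] {a b : M →ₗ[k] M}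
    (hK : KM a b) (hM : Ind a b) :
    (∃ n, Iso a b (op (IA n)) (op (IB n))) ∨ (∃ n, 1 ≤ n ∧ Iso a b (op (PA n)) (op (PB n))) ∨
    (∃ (p : k[X]) (n : ℕ), Irreducible p ∧ 1 ≤ n ∧
      Iso a b (op (LinearMap.id : (k[X] ⧸ (Ideal.span {p ^ n})) →ₗ[k] _)) (op (mulX (p ^ n)))) ∨
    (∃ (n : ℕ), 1 ≤ n ∧
      Iso a b (op (mulX (X ^ n))) (op (LinearMap.id : (k[X] ⧸ (Ideal.span {(X : k[X]) ^ n})) →ₗ[k] _))) := by
  by_cases hZ : ∀ z, a z = 0 → b z = 0 → z ∈ LinearMap.range a ⊔ LinearMap.range b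
  swap
  · push Not at hZ
    obtain ⟨z, h1, h2, h3⟩ := hZ
    exact Or.inl ⟨0, triv_case hK hM h1 h2 h3⟩
  obtain ⟨t, s, A, B, hiso, hN⟩ := normal_form hK hZ
  have hM' := hM.of_iso hiso
  rcases trichotomy hN with h | h | ⟨rfl, h⟩
  · obtain ⟨n, _, h1⟩ := I_case (op_KM A B) hM' h
    exact Or.inl ⟨n, hiso.trans h1⟩
  · obtain ⟨n, h0, h1⟩ := P_case (op_KM A B) hM' h
    exact Or.inr (Or.inl ⟨n, h0, hiso.trans h1⟩)
  have case1 : Function.Injective A → ∃ (p : k[X]) (n : ℕ), Irreducible p ∧ 1 ≤ n ∧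
      Iso a b (op (LinearMap.id : (k[X] ⧸ (Ideal.span {p ^ n})) →ₗ[k] _)) (op (mulX (p ^ n))) := by
    intro hA
    obtain ⟨Y, hY⟩ := norm_A (B := B) hA
    obtain ⟨p, n, hp, hn, h2⟩ := cyclic (hM'.of_iso hY)
    exact ⟨p, n, hp, hn, (hiso.trans hY).trans h2⟩
  rcases reg_AB hM' h with hA | hB
  · exact Or.inr (Or.inr (Or.inl (case1 hA)))
  · obtain ⟨Y, hY⟩ := norm_A (B := A) hB
    obtain ⟨p, n, hp, hn, h2⟩ := cyclic (hM'.swap.of_iso hY)
    have h3 : Iso a b (op (mulX (p ^ n))) (op (LinearMap.id : (k[X] ⧸ (Ideal.span {p ^ n})) →ₗ[k] _)) :=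
      hiso.trans ((hY.trans h2).swap)
    by_cases hpX : p ∣ X
    · have := eq_of_irr_dvd hp irr_X hpX
      subst this
      exact Or.inr (Or.inr (Or.inr ⟨n, hn, h3⟩))
    · right; right; left
      apply case1
      -- A is injective
      obtain ⟨E, hE1, hE2⟩ := (hY.trans h2).swap
      have hinj := mulX_inj hp hpX n
      intro x y hxy
      have h4 : op A (x, 0) = op A (y, 0) := by simp [hxy]
      have h5 := congrArg E h4
      rw [hE1, hE1, op_apply, op_apply] at h5
      have h6 := hinj (congrArg Prod.snd h5)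
      -- the top components agree; so difference lies in the kernel of b as well
      have h7 : op B (x, 0) = op B (y, 0) := by
        apply E.injective
        rw [hE2, hE2, op_apply, op_apply, h6]
      have h8 : B x = B y := congrArg Prod.snd h7
      exact hB h8

section W
variable {M : Type*} [AddCommGroup M] [Module k M] {N : Type*} [AddCommGroup N] [Module k N]

/-- the triple intersection -/
def W (a b : M →ₗ[k] M) : Submodule k M :=
  LinearMap.range a ⊓ LinearMap.range b ⊓ LinearMap.range (a + b)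

theorem mem_W {a b : M →ₗ[k] M} {x : M} : x ∈ W a b ↔ (∃ u, a u = x) ∧ (∃ u, b u = x) ∧
    ∃ u, a u + b u = x := by
  unfold W
  rw [Submodule.mem_inf, Submodule.mem_inf, and_assoc]
  rfl

theorem card_W_iso {a b : M →ₗ[k] M} {a' b' : N →ₗ[k] N} (h : Iso a b a' b') :
    Nat.card (W a b) = Nat.card (W a' b') := by
  obtain ⟨e, h1, h2⟩ := h
  apply Nat.card_congr
  refine Equiv.subtypeEquiv e.toEquiv ?_
  intro x
  rw [mem_W, mem_W]
  constructor
  · rintro ⟨⟨u, hu⟩, ⟨v, hv⟩, ⟨w, hw⟩⟩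
    exact ⟨⟨e u, by rw [← h1, hu]; rfl⟩, ⟨e v, by rw [← h2, hv]; rfl⟩,
      ⟨e w, by rw [← h1, ← h2, ← map_add, hw]; rfl⟩⟩
  · rintro ⟨⟨u, hu⟩, ⟨v, hv⟩, ⟨w, hw⟩⟩
    refine ⟨⟨e.symm u, ?_⟩, ⟨e.symm v, ?_⟩, ⟨e.symm w, ?_⟩⟩
    · apply e.injective; rw [h1, LinearEquiv.apply_symm_apply]; exact hu
    · apply e.injective; rw [h2, LinearEquiv.apply_symm_apply]; exact hv
    · apply e.injective; rw [map_add, h1, h2, LinearEquiv.apply_symm_apply]; exact hw

theorem W_swap {a b : M →ₗ[k] M} : W a b = W b a := by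
  unfold W
  rw [inf_comm (LinearMap.range a), add_comm a b]

theorem le_card_W {a b : M →ₗ[k] M} [Finite M] {L : Type*} (f : L → M)
    (hf : Function.Injective f) (h : ∀ x, f x ∈ W a b) : Nat.card L ≤ Nat.card (W a b) := by
  haveI : Finite (W a b) := inferInstance
  exact Nat.card_le_card_of_injective (fun x => (⟨f x, h x⟩ : W a b))
    (fun x y hxy => hf (congrArg Subtype.val hxy))

theorem W_I (n : ℕ) : 2 ^ n ≤ Nat.card (W (op (IA n)) (op (IB n))) := by
  have h1 : Nat.card (Fin n → k) = 2 ^ n := by simp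
  rw [← h1]
  apply le_card_W (fun w => ((0 : Fin (n + 1) → k), w))
  · intro w w' h
    exact congrArg Prod.snd h
  · intro w
    rw [mem_W]
    refine ⟨⟨(Fin.cons 0 w, 0), ?_⟩, ⟨(Fin.snoc w 0, 0), ?_⟩,
      ⟨(fun i => ∑ j : Fin n, if (j : ℕ) < i then w j else 0, 0), ?_⟩⟩
    · rw [op_apply]
      refine Prod.ext rfl ?_
      funext j
      simp
    · rw [op_apply]
      refine Prod.ext rfl ?_
      funext j
      simp
    · rw [op_apply, op_apply]
      refine Prod.ext (by simp) ?_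
      funext j
      simp only [Prod.snd_add, Pi.add_apply, IA_apply, IB_apply, Fin.val_succ, Fin.val_castSucc]
      rw [← Finset.sum_add_distrib]
      rw [Finset.sum_eq_single j]
      · simp
      · intro l _ hl
        have hne : (l : ℕ) ≠ j := fun h => hl (Fin.ext h)
        by_cases h3 : (l : ℕ) < j
        · rw [if_pos (by omega), if_pos h3]; exact add_self_k _
        · rw [if_neg (by omega), if_neg h3, add_zero]
      · intro h; exact absurd (Finset.mem_univ j) h

theorem PAB (n : ℕ) (v : Fin n → k) : PB (n + 1) (PA n v) = PA (n + 1) (PB n v) := by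
  rw [PA_apply, PB_apply, PA_apply, PB_apply]
  exact (Fin.cons_snoc_eq_snoc_cons 0 v 0).symm

theorem PA_inj (n : ℕ) : Function.Injective (PA n) := by
  intro u v h
  funext j
  have := congrFun h j.succ
  simpa [PA_apply] using this

theorem PB_inj (n : ℕ) : Function.Injective (PB n) := by
  intro u v h
  funext j
  have := congrFun h j.castSucc
  simpa [PB_apply] using this

theorem PAPB_inj (n : ℕ) : Function.Injective (fun v => PA n v + PB n v) := by
  have h0 : ∀ v, PA n v + PB n v = 0 → v = 0 := by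
    intro v hv
    have h1 : ∀ m (hm : m < n), v ⟨m, hm⟩ = 0 := by
      intro m
      induction m with
      | zero =>
        intro hm
        have := congrFun hv (Fin.castSucc ⟨0, hm⟩)
        obtain ⟨n', rfl⟩ : ∃ n', n = n' + 1 := ⟨n - 1, by omega⟩
        have h2 : (Fin.castSucc (⟨0, hm⟩ : Fin (n' + 1))) = 0 := rfl
        rw [Pi.add_apply, PB_apply, Fin.snoc_castSucc, PA_apply, h2, Fin.cons_zero] at this
        simpa using this
      | succ m ih =>
        intro hm
        have := congrFun hv (Fin.castSucc ⟨m + 1, hm⟩)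
        have h2 : (Fin.castSucc (⟨m + 1, hm⟩ : Fin n)) = Fin.succ ⟨m, by omega⟩ := rfl
        rw [Pi.add_apply, PB_apply, Fin.snoc_castSucc, PA_apply, h2, Fin.cons_succ, ih (by omega)] at this
        simpa using this
    funext j
    exact h1 j j.2
  intro u v h
  simp only at h
  have : (u - v) = 0 := by
    apply h0
    rw [map_sub, map_sub]
    calc _ = (PA n u + PB n u) - (PA n v + PB n v) := by abel
      _ = 0 := by rw [h, sub_self]
  exact sub_eq_zero.1 this

theorem W_P (m : ℕ) : 2 ^ m ≤ Nat.card (W (op (PA (m + 2))) (op (PB (m + 2)))) := by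
  have h1 : Nat.card (Fin m → k) = 2 ^ m := by simp
  rw [← h1]
  apply le_card_W (fun v => ((0 : Fin (m + 2) → k),
    PB (m + 2) ((PA (m + 1) (PA m v) + PB (m + 1) (PA m v)))))
  · intro v w h
    exact PA_inj _ (PAPB_inj _ (PB_inj _ (congrArg Prod.snd h)))
  · intro v
    rw [mem_W]
    refine ⟨⟨(PA (m + 1) (PB m v) + PB (m + 1) (PB m v), 0), ?_⟩,
      ⟨(PA (m + 1) (PA m v) + PB (m + 1) (PA m v), 0), rfl⟩, ⟨(PB (m + 1) (PA m v), 0), ?_⟩⟩
    · rw [op_apply]
      refine Prod.ext rfl ?_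
      simp only [map_add]
      rw [← PAB, ← PAB, ← PAB, ← PAB]
    · rw [op_apply, op_apply]
      refine Prod.ext (by simp) ?_
      simp only [Prod.snd_add, map_add]
      rw [← PAB]

theorem W_R (f g0 : k[X]) (hf : f ≠ 0) (hg0 : g0 ≠ 0)
    (h1 : ∀ y : k[X], ∃ y1 : k[X], (Ideal.Quotient.mk (Ideal.span {f}) (X * y1)) = Ideal.Quotient.mk (Ideal.span {f}) (g0 * y))
    (h2 : ∀ y : k[X], ∃ y1 : k[X], (Ideal.Quotient.mk (Ideal.span {f}) ((1 + X) * y1)) = Ideal.Quotient.mk (Ideal.span {f}) (g0 * y))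
    (hfin : Finite (k[X] ⧸ (Ideal.span {f}))) :
    2 ^ (f.natDegree - g0.natDegree) ≤
      Nat.card (W (op (LinearMap.id : (k[X] ⧸ (Ideal.span {f})) →ₗ[k] _)) (op (mulX f))) := by
  have hc : Nat.card (Polynomial.degreeLT k (f.natDegree - g0.natDegree)) = 2 ^ (f.natDegree - g0.natDegree) := by
    rw [Nat.card_congr (Polynomial.degreeLTEquiv k _).toEquiv]
    simp
  rw [← hc]
  apply le_card_W (fun v : Polynomial.degreeLT k (f.natDegree - g0.natDegree) =>
    ((0 : k[X] ⧸ (Ideal.span {f})), Ideal.Quotient.mk (Ideal.span {f}) (g0 * (v : k[X]))))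
  · intro v w h
    have h3 := congrArg Prod.snd h
    simp only at h3
    rw [Ideal.Quotient.eq, Ideal.mem_span_singleton, ← mul_sub] at h3
    have h4 : ((v - w : Polynomial.degreeLT k (f.natDegree - g0.natDegree)) : k[X]) = v - w := rfl
    have h5 := (v - w).2
    rw [Polynomial.mem_degreeLT, h4] at h5
    by_contra hne
    have h6 : (v : k[X]) - w ≠ 0 := by
      intro h0
      exact hne (Subtype.ext (sub_eq_zero.1 h0))
    have h7 := Polynomial.natDegree_le_of_dvd h3 (mul_ne_zero hg0 h6)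
    rw [Polynomial.natDegree_mul hg0 h6] at h7
    have h8 : ((v : k[X]) - w).natDegree < f.natDegree - g0.natDegree := by
      rwa [Polynomial.natDegree_lt_iff_degree_lt h6]
    omega
  · intro v
    rw [mem_W]
    obtain ⟨y1, hy1⟩ := h1 v
    obtain ⟨y2, hy2⟩ := h2 v
    refine ⟨⟨(Ideal.Quotient.mk (Ideal.span {f}) (g0 * (v : k[X])), 0), rfl⟩,
      ⟨(Ideal.Quotient.mk (Ideal.span {f}) y1, 0), ?_⟩,
      ⟨(Ideal.Quotient.mk (Ideal.span {f}) y2, 0), ?_⟩⟩
    · rw [op_apply, mulX_mk, hy1]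
    · rw [op_apply, op_apply]
      refine Prod.ext (by simp) ?_
      simp only [Prod.snd_add, LinearMap.id_apply]
      rw [mulX_mk, ← map_add, ← hy2]
      congr 1; ring

theorem unit_solve {f c : k[X]} (h : IsCoprime f c) (z : k[X]) :
    ∃ y1 : k[X], (Ideal.Quotient.mk (Ideal.span {f}) (c * y1)) = Ideal.Quotient.mk (Ideal.span {f}) z := by
  obtain ⟨u, v, huv⟩ := h
  refine ⟨v * z, ?_⟩
  rw [Ideal.Quotient.eq, Ideal.mem_span_singleton]
  refine ⟨-(u * z), ?_⟩
  linear_combination z * huv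

theorem fin_quot {f : k[X]} (hf : f ≠ 0) : Finite (k[X] ⧸ (Ideal.span {f})) := by
  haveI : Module.Finite k (AdjoinRoot f) := by
    have h1 : f.leadingCoeff = 1 := by
      rcases k_cases f.leadingCoeff with h | h
      · exact absurd (Polynomial.leadingCoeff_eq_zero.1 h) hf
      · exact h
    exact Polynomial.Monic.finite_adjoinRoot h1
  haveI : Finite (AdjoinRoot f) := Module.finite_of_finite k
  exact this

theorem W_bound_R {p : k[X]} (hp : Irreducible p) {n : ℕ} (hn : 1 ≤ n)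
    (hW : Nat.card (W (op (LinearMap.id : (k[X] ⧸ (Ideal.span {p ^ n})) →ₗ[k] _)) (op (mulX (p ^ n)))) ≤ 32) :
    n * p.natDegree ≤ 5 ∨ (p.natDegree = 1 ∧ n ≤ 6) := by
  have hf : p ^ n ≠ 0 := pow_ne_zero n hp.ne_zero
  have hfin := fin_quot hf
  have hpow : ∀ m, 2 ^ m ≤ 32 → m ≤ 5 := by
    intro m hm
    by_contra h
    have : 2 ^ 6 ≤ 2 ^ m := Nat.pow_le_pow_right (by norm_num) (by omega)
    omega
  have cop : ∀ {q : k[X]}, ¬ p ∣ q → IsCoprime (p ^ n) q := by
    intro q hq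
    apply IsCoprime.pow_left
    exact hp.coprime_iff_not_dvd.2 hq
  by_cases h1 : p ∣ X
  · have hpX := eq_of_irr_dvd hp irr_X h1
    have h2 : ¬ p ∣ (1 + X) := by
      intro h2
      have h3 := eq_of_irr_dvd hp irr_X1 h2
      rw [hpX] at h3
      have := congrArg (fun z : k[X] => z.coeff 0) h3
      simp at this
    right
    have h4 := W_R (p ^ n) X hf X_ne_zero (fun y => ⟨y, rfl⟩) (fun y => unit_solve (cop h2) _) hfin
    have h5 := hpow _ (h4.trans hW)
    rw [hpX, natDegree_X_pow, natDegree_X] at h5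
    rw [hpX, natDegree_X]
    omega
  · by_cases h2 : p ∣ (1 + X)
    · have hpX := eq_of_irr_dvd hp irr_X1 h2
      have hd : (1 + X : k[X]).natDegree = 1 := by
        rw [add_comm]; exact natDegree_X_add_C (1 : k)
      have h4 := W_R (p ^ n) (1 + X) hf (by
        intro h0; rw [h0] at hd; simp at hd) (fun y => unit_solve (cop h1) _) (fun y => ⟨y, rfl⟩) hfin
      have h5 := hpow _ (h4.trans hW)
      rw [natDegree_pow, hpX, hd] at h5
      right
      rw [hpX, hd]
      omega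
    · left
      have h4 := W_R (p ^ n) 1 hf one_ne_zero (fun y => unit_solve (cop h1) _)
        (fun y => unit_solve (cop h2) _) hfin
      have h5 := hpow _ (h4.trans hW)
      rw [natDegree_pow, natDegree_one] at h5
      omega

end W

/-- **Classification with bounded triple intersection.** -/
theorem classify_bounded {M : Type*} [AddCommGroup M] [Module k M] [Finite M] {a b : M →ₗ[k] M}
    (hK : KM a b) (hM : Ind a b) (hW : Nat.card (W a b) ≤ 32) :
    (∃ n, n ≤ 5 ∧ Iso a b (op (IA n)) (op (IB n))) ∨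
    (∃ n, 1 ≤ n ∧ n ≤ 7 ∧ Iso a b (op (PA n)) (op (PB n))) ∨
    (∃ (p : k[X]) (n : ℕ), Irreducible p ∧ 1 ≤ n ∧ (n * p.natDegree ≤ 5 ∨ (p.natDegree = 1 ∧ n ≤ 6)) ∧
      Iso a b (op (LinearMap.id : (k[X] ⧸ (Ideal.span {p ^ n})) →ₗ[k] _)) (op (mulX (p ^ n)))) ∨
    (∃ (n : ℕ), 1 ≤ n ∧ n ≤ 6 ∧
      Iso a b (op (mulX (X ^ n))) (op (LinearMap.id : (k[X] ⧸ (Ideal.span {(X : k[X]) ^ n})) →ₗ[k] _))) := by
  have hpow : ∀ m, 2 ^ m ≤ 32 → m ≤ 5 := by
    intro m hm
    by_contra h
    have : 2 ^ 6 ≤ 2 ^ m := Nat.pow_le_pow_right (by norm_num) (by omega)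
    omega
  rcases classify hK hM with ⟨n, h⟩ | ⟨n, hn, h⟩ | ⟨p, n, hp, hn, h⟩ | ⟨n, hn, h⟩
  · left
    rw [card_W_iso h] at hW
    exact ⟨n, hpow n ((W_I n).trans hW), h⟩
  · right; left
    refine ⟨n, hn, ?_, h⟩
    rw [card_W_iso h] at hW
    by_contra h0
    obtain ⟨m, rfl⟩ : ∃ m, n = m + 2 := ⟨n - 2, by omega⟩
    have := hpow m ((W_P m).trans hW)
    omega
  · right; right; left
    rw [card_W_iso h] at hW
    exact ⟨p, n, hp, hn, W_bound_R hp hn hW, h⟩
  · right; right; right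
    rw [card_W_iso h, W_swap] at hW
    have := W_bound_R irr_X hn hW
    rw [natDegree_X] at this
    exact ⟨n, hn, by omega, h⟩

end Pool.Agent.H471R2.Kr
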