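import Pool.Agent.H471R2.Kr.Base
set_option autoImplicit false
set_option linter.all false

namespace Pool.Agent.H471R2.Kr

variable {M : Type*} [AddCommGroup M] [Module k M] [Finite M]

theorem dual_KM {a b : M →ₗ[k] M} (h : KM a b) : KM a.dualMap b.dualMap := by
  constructor <;> intro φ <;> ext x <;> simp [LinearMap.dualMap_apply, h.aa, h.bb, h.ab, h.ba]

theorem dual_Ind {a b : M →ₗ[k] M} (h : Ind a b) : Ind a.dualMap b.dualMap := by
  obtain ⟨hn, hI⟩ := h
  haveI : Module.Finite k M := inferInstance
  refine ⟨(Module.Free.chooseBasis k M).toDualEquiv.symm.toEquiv.nontrivial, ?_⟩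
  intro e ea eb ee
  -- transpose of e
  let e' : M →ₗ[k] M := (Module.evalEquiv k M).symm.toLinearMap ∘ₗ e.dualMap ∘ₗ
    (Module.evalEquiv k M).toLinearMap
  have he' : ∀ (φ : Module.Dual k M) (x : M), φ (e' x) = e φ x := by
    intro φ x
    simp only [e', LinearMap.comp_apply, LinearEquiv.coe_coe]
    rw [Module.apply_evalEquiv_symm_apply]
    rfl
  have hsep : ∀ x y : M, (∀ φ : Module.Dual k M, φ x = φ y) → x = y := by
    intro x y hxy
    rw [← sub_eq_zero, ← Module.forall_dual_apply_eq_zero_iff k]
    intro φ
    rw [map_sub, hxy, sub_self]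
  rcases hI e' (by
    intro x
    apply hsep
    intro φ
    rw [he']
    have := he' (a.dualMap φ) x
    rw [LinearMap.dualMap_apply, ea] at this
    rw [this]; rfl) (by
    intro x
    apply hsep
    intro φ
    rw [he']
    have := he' (b.dualMap φ) x
    rw [LinearMap.dualMap_apply, eb] at this
    rw [this]; rfl) (by
    intro x
    apply hsep
    intro φ
    rw [he', he', he', ee]) with h | h
  · left
    intro φ
    ext x
    rw [← he', h, map_zero]; rfl
  · right
    intro φ
    ext x
    rw [← he', h]

theorem finite_dual : Finite (Module.Dual k M) := by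
  haveI : Finite k := inferInstance
  exact DFunLike.finite _

theorem P_case {a b : M →ₗ[k] M} (hK : KM a b) (hM : Ind a b)
    (hQ : ∃ n, Q a.dualMap b.dualMap n) :
    ∃ n, 1 ≤ n ∧ Iso a b (op (PA n)) (op (PB n)) := by
  haveI : Finite (Module.Dual k M) := finite_dual
  obtain ⟨n, hn, e, h1, h2⟩ := I_case (dual_KM hK) (dual_Ind hM) hQ
  refine ⟨n, hn, ?_⟩
  haveI : Module.Finite k M := inferInstance
  let F0 : (Fin n → k) × (Fin (n + 1) → k) →ₗ[k] Module.Dual k (Module.Dual k M) :=
    { toFun := fun p =>
        { toFun := fun φ => (∑ i, p.2 i * (e φ).1 i) + ∑ j, p.1 j * (e φ).2 j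
          map_add' := by
            intro φ φ'
            simp only [map_add, Prod.fst_add, Prod.snd_add, Pi.add_apply, mul_add,
              Finset.sum_add_distrib]
            abel
          map_smul' := by
            intro c φ
            simp only [map_smul, Prod.smul_fst, Prod.smul_snd, Pi.smul_apply, smul_eq_mul,
              RingHom.id_apply, mul_add, Finset.mul_sum]
            congr 1 <;> (apply Finset.sum_congr rfl; intro i _; ring) }
      map_add' := by
        intro p q
        ext φ
        simp only [LinearMap.coe_mk, AddHom.coe_mk, LinearMap.add_apply, Prod.fst_add, Prod.snd_add,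
          Pi.add_apply, add_mul, Finset.sum_add_distrib]
        abel
      map_smul' := by
        intro c p
        ext φ
        simp only [LinearMap.coe_mk, AddHom.coe_mk, LinearMap.smul_apply, Prod.smul_fst,
          Prod.smul_snd, Pi.smul_apply, smul_eq_mul, RingHom.id_apply, mul_add, Finset.mul_sum]
        congr 1 <;> (apply Finset.sum_congr rfl; intro i _; ring) }
  let F : (Fin n → k) × (Fin (n + 1) → k) →ₗ[k] M := (Module.evalEquiv k M).symm.toLinearMap ∘ₗ F0
  have hF : ∀ (φ : Module.Dual k M) p, φ (F p) = (∑ i, p.2 i * (e φ).1 i) + ∑ j, p.1 j * (e φ).2 j := by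
    intro φ p
    simp only [F, LinearMap.comp_apply, LinearEquiv.coe_coe]
    rw [Module.apply_evalEquiv_symm_apply]
    rfl
  have hsep : ∀ x y : M, (∀ φ : Module.Dual k M, φ x = φ y) → x = y := by
    intro x y hxy
    rw [← sub_eq_zero, ← Module.forall_dual_apply_eq_zero_iff k]
    intro φ
    rw [map_sub, hxy, sub_self]
  have hFa : ∀ p, F (op (PA n) p) = a (F p) := by
    intro p
    apply hsep
    intro φ
    have e1 := hF (a.dualMap φ) p
    rw [LinearMap.dualMap_apply] at e1
    rw [e1, hF, h1]
    simp only [op_apply, Pi.zero_apply, mul_zero, zero_mul, Finset.sum_const_zero, zero_add, add_zero,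
      IA_apply, PA_apply]
    rw [Fin.sum_univ_succ]
    simp
  have hFb : ∀ p, F (op (PB n) p) = b (F p) := by
    intro p
    apply hsep
    intro φ
    have e1 := hF (b.dualMap φ) p
    rw [LinearMap.dualMap_apply] at e1
    rw [e1, hF, h2]
    simp only [op_apply, Pi.zero_apply, mul_zero, zero_mul, Finset.sum_const_zero, zero_add, add_zero,
      IB_apply, PB_apply]
    rw [Fin.sum_univ_castSucc]
    simp
  have hinj : Function.Injective F := by
    rw [← LinearMap.ker_eq_bot, LinearMap.ker_eq_bot']
    rintro ⟨w, u⟩ h
    have h3 : ∀ v : (Fin (n + 1) → k) × (Fin n → k), (∑ i, u i * v.1 i) + ∑ j, w j * v.2 j = 0 := by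
      intro v
      have := hF (e.symm v) (w, u)
      rw [h, map_zero, LinearEquiv.apply_symm_apply] at this
      exact this.symm
    have hu : u = 0 := by
      funext i
      have := h3 (Pi.single i 1, 0)
      simpa [Pi.single_apply] using this
    have hw : w = 0 := by
      funext j
      have := h3 (0, Pi.single j 1)
      simpa [Pi.single_apply] using this
    rw [hu, hw]; rfl
  have hdim : Module.finrank k ((Fin n → k) × (Fin (n + 1) → k)) = Module.finrank k M := by
    rw [← Subspace.dual_finrank_eq (K := k) (V := M), e.finrank_eq]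
    simp [add_comm]
  have hiso : Iso (op (PA n)) (op (PB n)) a b := by
    refine ⟨LinearMap.linearEquivOfInjective F hinj hdim, ?_, ?_⟩
    · intro x; exact hFa x
    · intro x; exact hFb x
  exact hiso.symm

end Pool.Agent.H471R2.Kr
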