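import Pool.Agent.H471R2.Kr.Dual
set_option autoImplicit false
set_option linter.all false

open Polynomial

namespace Pool.Agent.H471R2.Kr

variable {M : Type*} [AddCommGroup M] [Module k M] [Finite M]

/-- the trivial case -/
theorem triv_case {a b : M →ₗ[k] M} (hK : KM a b) (hM : Ind a b) {z : M} (hza : a z = 0)
    (hzb : b z = 0) (hz : z ∉ LinearMap.range a ⊔ LinearMap.range b) :
    Iso a b (op (IA 0)) (op (IB 0)) := by
  obtain ⟨χ, hχz, hχ⟩ := Submodule.exists_le_ker_of_notMem hz
  have hχa : ∀ x, χ (a x) = 0 := fun x => hχ (Submodule.mem_sup_left ⟨x, rfl⟩)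
  have hχb : ∀ x, χ (b x) = 0 := fun x => hχ (Submodule.mem_sup_right ⟨x, rfl⟩)
  have hχ1 : χ z = 1 := by
    rcases k_cases (χ z) with h | h
    · exact absurd h hχz
    · exact h
  let f : (Fin (0 + 1) → k) × (Fin 0 → k) →ₗ[k] M :=
    ((LinearMap.proj 0 : (Fin (0 + 1) → k) →ₗ[k] k).smulRight z) ∘ₗ LinearMap.fst k _ _
  let g : M →ₗ[k] (Fin (0 + 1) → k) × (Fin 0 → k) := LinearMap.prod (LinearMap.pi (fun _ => χ)) 0
  have hf : ∀ p, f p = p.1 0 • z := fun p => rfl
  have hg : ∀ m, g m = (fun _ => χ m, 0) := fun m => rfl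
  haveI : Nontrivial ((Fin (0 + 1) → k) × (Fin 0 → k)) := inferInstance
  apply split hM f g
  · intro p
    rw [hf, hf, op_apply, map_smul, hza]; simp
  · intro p
    rw [hf, hf, op_apply, map_smul, hzb]; simp
  · intro m
    rw [hg, hg, op_apply]
    refine Prod.ext ?_ ?_
    · funext i; exact hχa m
    · exact Subsingleton.elim _ _
  · intro m
    rw [hg, hg, op_apply]
    refine Prod.ext ?_ ?_
    · funext i; exact hχb m
    · exact Subsingleton.elim _ _
  · have : ∀ p, (g ∘ₗ f) p = p := by
      intro p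
      rw [LinearMap.comp_apply, hg, hf, map_smul, hχ1]
      refine Prod.ext ?_ ?_
      · funext i
        have : i = 0 := Fin.eq_zero i
        rw [this]; simp
      · exact Subsingleton.elim _ _
    constructor
    · intro p q hpq
      rw [this, this] at hpq; exact hpq
    · intro p; exact ⟨p, this p⟩

/-- nondegeneracy of a pair -/
structure ND {t s : ℕ} (A B : (Fin t → k) →ₗ[k] (Fin s → k)) : Prop where
  inj : ∀ u, A u = 0 → B u = 0 → u = 0
  surj : ∀ y : Module.Dual k (Fin s → k), (∀ u, y (A u) = 0) → (∀ u, y (B u) = 0) → y = 0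

theorem normal_form {a b : M →ₗ[k] M} (hK : KM a b)
    (hZ : ∀ z, a z = 0 → b z = 0 → z ∈ LinearMap.range a ⊔ LinearMap.range b) :
    ∃ (t s : ℕ) (A B : (Fin t → k) →ₗ[k] (Fin s → k)), Iso a b (op A) (op B) ∧ ND A B := by
  haveI : Module.Finite k M := inferInstance
  set S : Submodule k M := LinearMap.range a ⊔ LinearMap.range b with hS
  have hSa : ∀ y ∈ S, a y = 0 := by
    intro y hy
    obtain ⟨_, ⟨p, rfl⟩, _, ⟨q, rfl⟩, rfl⟩ := Submodule.mem_sup.1 hy
    rw [map_add, hK.aa, hK.ab, add_zero]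
  have hSb : ∀ y ∈ S, b y = 0 := by
    intro y hy
    obtain ⟨_, ⟨p, rfl⟩, _, ⟨q, rfl⟩, rfl⟩ := Submodule.mem_sup.1 hy
    rw [map_add, hK.ba, hK.bb, add_zero]
  obtain ⟨T, hT⟩ := S.exists_isCompl
  let eT : T ≃ₗ[k] (Fin (Module.finrank k T) → k) := (Module.finBasis k T).equivFun
  let eS : S ≃ₗ[k] (Fin (Module.finrank k S) → k) := (Module.finBasis k S).equivFun
  let a' : T →ₗ[k] S := (a.domRestrict T).codRestrict S (fun x => Submodule.mem_sup_left ⟨_, rfl⟩)
  let b' : T →ₗ[k] S := (b.domRestrict T).codRestrict S (fun x => Submodule.mem_sup_right ⟨_, rfl⟩)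
  let A : (Fin (Module.finrank k T) → k) →ₗ[k] (Fin (Module.finrank k S) → k) :=
    eS.toLinearMap ∘ₗ a' ∘ₗ eT.symm.toLinearMap
  let B : (Fin (Module.finrank k T) → k) →ₗ[k] (Fin (Module.finrank k S) → k) :=
    eS.toLinearMap ∘ₗ b' ∘ₗ eT.symm.toLinearMap
  let E : ((Fin (Module.finrank k T) → k) × (Fin (Module.finrank k S) → k)) ≃ₗ[k] M :=
    (eT.symm.prodCongr eS.symm).trans (Submodule.prodEquivOfIsCompl T S hT.symm)
  have hE : ∀ p, E p = (eT.symm p.1 : M) + (eS.symm p.2 : M) := fun p => rfl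
  have hEa : ∀ p, E (op A p) = a (E p) := by
    intro p
    rw [hE, hE, op_apply, map_add, hSa _ (eS.symm p.2).2, add_zero]
    simp only [map_zero, Submodule.coe_zero, zero_add, A, LinearMap.comp_apply, LinearEquiv.coe_coe,
      LinearEquiv.symm_apply_apply]
    rfl
  have hEb : ∀ p, E (op B p) = b (E p) := by
    intro p
    rw [hE, hE, op_apply, map_add, hSb _ (eS.symm p.2).2, add_zero]
    simp only [map_zero, Submodule.coe_zero, zero_add, B, LinearMap.comp_apply, LinearEquiv.coe_coe,
      LinearEquiv.symm_apply_apply]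
    rfl
  refine ⟨_, _, A, B, Iso.symm ⟨E, hEa, hEb⟩, ?_, ?_⟩
  · intro u hu1 hu2
    have h1 : a (E (u, 0)) = 0 := by rw [← hEa, op_apply]; simp [hu1]
    have h2 : b (E (u, 0)) = 0 := by rw [← hEb, op_apply]; simp [hu2]
    have h3 := hZ _ h1 h2
    obtain ⟨_, ⟨p, rfl⟩, _, ⟨q, rfl⟩, h4⟩ := Submodule.mem_sup.1 h3
    have h5 : (u, 0) = op A (E.symm p) + op B (E.symm q) := by
      apply E.injective
      rw [map_add, hEa, hEb, LinearEquiv.apply_symm_apply, LinearEquiv.apply_symm_apply, h4]
    have h6 := congrArg Prod.fst h5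
    simpa using h6
  · intro y hy1 hy2
    ext i
    set w : Fin (Module.finrank k S) → k := Pi.single i 1 with hw
    have h3 : (eS.symm w : M) ∈ S := (eS.symm w).2
    obtain ⟨_, ⟨p, rfl⟩, _, ⟨q, rfl⟩, h4⟩ := Submodule.mem_sup.1 h3
    have h5 : ((0, w) : (Fin (Module.finrank k T) → k) × (Fin (Module.finrank k S) → k)) =
        op A (E.symm p) + op B (E.symm q) := by
      apply E.injective
      rw [map_add, hEa, hEb, LinearEquiv.apply_symm_apply, LinearEquiv.apply_symm_apply, h4, hE]
      simp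
    have h6 := congrArg Prod.snd h5
    simp only [op_apply, Prod.snd_add] at h6
    simp only [LinearMap.comp_apply, LinearMap.coe_single, LinearMap.zero_apply]
    rw [← hw, h6, map_add, hy1, hy2, add_zero]

/-- the pencil -/
noncomputable def pen {t s : ℕ} (A B : (Fin t → k) →ₗ[k] (Fin s → k)) : Matrix (Fin s) (Fin t) k[X] :=
  fun i j => C (LinearMap.toMatrix' A i j) + X * C (LinearMap.toMatrix' B i j)

theorem pen_coeff_zero {t s : ℕ} (A B : (Fin t → k) →ₗ[k] (Fin s → k)) (v : Fin t → k[X])
    (i : Fin s) : ((pen A B).mulVec v i).coeff 0 = A (fun j => (v j).coeff 0) i := by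
  have h := congrFun (LinearMap.toMatrix'_mulVec A (fun j => (v j).coeff 0)) i
  rw [← h]
  simp only [Matrix.mulVec, dotProduct, pen, finset_sum_coeff, add_mul, coeff_add, mul_assoc,
    coeff_C_mul, coeff_X_mul_zero, add_zero]

theorem pen_coeff_succ {t s : ℕ} (A B : (Fin t → k) →ₗ[k] (Fin s → k)) (v : Fin t → k[X])
    (i : Fin s) (n : ℕ) : ((pen A B).mulVec v i).coeff (n + 1) =
      A (fun j => (v j).coeff (n + 1)) i + B (fun j => (v j).coeff n) i := by
  have h := congrFun (LinearMap.toMatrix'_mulVec A (fun j => (v j).coeff (n + 1))) i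
  have h' := congrFun (LinearMap.toMatrix'_mulVec B (fun j => (v j).coeff n)) i
  rw [← h, ← h']
  simp only [Matrix.mulVec, dotProduct, pen, finset_sum_coeff, add_mul, coeff_add, mul_assoc,
    coeff_C_mul, coeff_X_mul, Finset.sum_add_distrib]

theorem Q_of_ker {t s : ℕ} {A B : (Fin t → k) →ₗ[k] (Fin s → k)} (hN : ND A B) {v : Fin t → k[X]}
    (hv : v ≠ 0) (h : (pen A B).mulVec v = 0) : ∃ n, Q (op A) (op B) n := by
  classical
  let x : ℕ → (Fin t → k) := fun n j => (v j).coeff n
  have hx0 : A (x 0) = 0 := by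
    funext i
    rw [← pen_coeff_zero A B v i, h]; simp
  have hxs : ∀ n, A (x (n + 1)) = B (x n) := by
    intro n
    apply eq_of_add_k
    funext i
    rw [Pi.add_apply, ← pen_coeff_succ A B v i n, h]; simp
  have hex : ∃ n, x n ≠ 0 := by
    by_contra hcon
    push Not at hcon
    apply hv
    funext j
    ext n
    exact congrFun (hcon n) j
  obtain ⟨N, hN2⟩ : ∃ N, ∀ n, N ≤ n → x n = 0 := by
    refine ⟨(Finset.univ.sup (fun j => (v j).natDegree)) + 1, fun n hn => ?_⟩
    funext j
    apply coeff_eq_zero_of_natDegree_lt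
    have := Finset.le_sup (f := fun j => (v j).natDegree) (Finset.mem_univ j)
    exact lt_of_le_of_lt this (by omega)
  set m := Nat.find hex with hm
  have hm1 : x m ≠ 0 := Nat.find_spec hex
  have hm2 : ∀ i, i < m → x i = 0 := fun i hi => by
    by_contra h0
    exact Nat.find_min hex hi h0
  have hAm : A (x m) = 0 := by
    rcases Nat.eq_zero_or_pos m with h0 | h0
    · rw [h0]; exact hx0
    · obtain ⟨m', hm'⟩ : ∃ m', m = m' + 1 := ⟨m - 1, by omega⟩
      rw [hm', hxs, hm2 m' (by omega), map_zero]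
  refine ⟨N, fun i => (x (m + i), 0), ?_, ?_, ?_, ?_⟩
  · simp [hAm]
  · intro h0
    apply hm1
    apply hN.inj _ hAm
    have := congrArg Prod.snd h0
    simpa using this
  · intro i _
    simp only [op_apply]
    rw [← Nat.add_assoc, hxs]
  · simp only [op_apply]
    rw [hN2 (m + N) (by omega), map_zero]
    rfl

theorem pen_vec_zero {t s : ℕ} (A B : (Fin t → k) →ₗ[k] (Fin s → k)) (w : Fin s → k[X])
    (j : Fin t) : ((pen A B).vecMul w j).coeff 0 = ∑ i, (w i).coeff 0 * A (Pi.single j 1) i := by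
  simp only [Matrix.vecMul, dotProduct, pen, finset_sum_coeff, mul_add, coeff_add]
  apply Finset.sum_congr rfl
  intro i _
  rw [mul_coeff_zero, mul_comm X, ← mul_assoc, coeff_mul_X_zero, coeff_C_zero, add_zero,
    LinearMap.toMatrix'_apply]

theorem pen_vec_succ {t s : ℕ} (A B : (Fin t → k) →ₗ[k] (Fin s → k)) (w : Fin s → k[X])
    (j : Fin t) (n : ℕ) : ((pen A B).vecMul w j).coeff (n + 1) =
      (∑ i, (w i).coeff (n + 1) * A (Pi.single j 1) i) + ∑ i, (w i).coeff n * B (Pi.single j 1) i := by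
  simp only [Matrix.vecMul, dotProduct, pen, finset_sum_coeff, mul_add, coeff_add]
  rw [← Finset.sum_add_distrib]
  apply Finset.sum_congr rfl
  intro i _
  rw [coeff_mul_C, mul_comm X, ← mul_assoc, coeff_mul_X, coeff_mul_C,
    LinearMap.toMatrix'_apply, LinearMap.toMatrix'_apply]

/-- row functional -/
noncomputable def rowf {t s : ℕ} (y : Fin s → k) : Module.Dual k ((Fin t → k) × (Fin s → k)) where
  toFun p := ∑ i, y i * p.2 i
  map_add' p q := by simp [mul_add, Finset.sum_add_distrib]
  map_smul' c p := by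
    simp only [Prod.smul_snd, Pi.smul_apply, smul_eq_mul, RingHom.id_apply, Finset.mul_sum]
    apply Finset.sum_congr rfl
    intro i _; ring

theorem Qd_of_ker {t s : ℕ} {A B : (Fin t → k) →ₗ[k] (Fin s → k)} (hN : ND A B) {w : Fin s → k[X]}
    (hw : w ≠ 0) (h : (pen A B).vecMul w = 0) : ∃ n, Q (op A).dualMap (op B).dualMap n := by
  classical
  let y : ℕ → (Fin s → k) := fun n j => (w j).coeff n
  -- extension to all vectors
  have hlin : ∀ (L : (Fin t → k) →ₗ[k] (Fin s → k)) (z : Fin s → k) (u : Fin t → k),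
      ∑ i, z i * L u i = ∑ j, u j * ∑ i, z i * L (Pi.single j 1) i := by
    intro L z u
    have hu : L u = ∑ j, u j • L (Pi.single j 1) := by
      conv_lhs => rw [pi_eq_sum_univ' u]
      rw [map_sum]
      apply Finset.sum_congr rfl
      intro j _
      rw [map_smul]
    rw [hu]
    simp only [Finset.sum_apply, Pi.smul_apply, smul_eq_mul, Finset.mul_sum]
    rw [Finset.sum_comm]
    apply Finset.sum_congr rfl
    intro j _
    apply Finset.sum_congr rfl
    intro i _
    ring
  have hy0 : ∀ u, ∑ i, y 0 i * A u i = 0 := by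
    intro u
    rw [hlin]
    apply Finset.sum_eq_zero
    intro j _
    have := congrArg (fun z => (z j).coeff 0) h
    simp only [pen_vec_zero, Pi.zero_apply, coeff_zero] at this
    rw [this, mul_zero]
  have hys : ∀ n u, ∑ i, y (n + 1) i * A u i = ∑ i, y n i * B u i := by
    intro n u
    rw [hlin, hlin B]
    apply Finset.sum_congr rfl
    intro j _
    have := congrArg (fun z => (z j).coeff (n + 1)) h
    simp only [pen_vec_succ, Pi.zero_apply, coeff_zero] at this
    rw [eq_of_add_k this]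
  have hex : ∃ n, y n ≠ 0 := by
    by_contra hcon
    push Not at hcon
    apply hw
    funext j
    ext n
    exact congrFun (hcon n) j
  obtain ⟨N, hN2⟩ : ∃ N, ∀ n, N ≤ n → y n = 0 := by
    refine ⟨(Finset.univ.sup (fun j => (w j).natDegree)) + 1, fun n hn => ?_⟩
    funext j
    apply coeff_eq_zero_of_natDegree_lt
    have := Finset.le_sup (f := fun j => (w j).natDegree) (Finset.mem_univ j)
    exact lt_of_le_of_lt this (by omega)
  set m := Nat.find hex with hm
  have hm1 : y m ≠ 0 := Nat.find_spec hex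
  have hm2 : ∀ i, i < m → y i = 0 := fun i hi => by
    by_contra h0
    exact Nat.find_min hex hi h0
  have hAm : ∀ u, ∑ i, y m i * A u i = 0 := by
    rcases Nat.eq_zero_or_pos m with h0 | h0
    · rw [h0]; exact hy0
    · obtain ⟨m', hm'⟩ : ∃ m', m = m' + 1 := ⟨m - 1, by omega⟩
      intro u
      rw [hm', hys, hm2 m' (by omega)]
      simp
  have hrow : ∀ (z : Fin s → k) (L : (Fin t → k) →ₗ[k] (Fin s → k)) p,
      (op L).dualMap (rowf (t := t) z) p = ∑ i, z i * L p.1 i := by
    intro z L p; rfl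
  refine ⟨N, fun i => rowf (y (m + i)), ?_, ?_, ?_, ?_⟩
  · apply LinearMap.ext
    intro p
    rw [hrow, add_zero, hAm]; rfl
  · intro h0
    apply hm1
    have hB : ∀ u, ∑ i, y m i * B u i = 0 := by
      intro u
      have := LinearMap.congr_fun h0 (u, 0)
      rw [hrow, add_zero] at this
      exact this
    let yf : Module.Dual k (Fin s → k) :=
      { toFun := fun z => ∑ i, y m i * z i
        map_add' := fun p q => by simp [mul_add, Finset.sum_add_distrib]
        map_smul' := fun c p => by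
          simp only [Pi.smul_apply, smul_eq_mul, RingHom.id_apply, Finset.mul_sum]
          apply Finset.sum_congr rfl
          intro i _; ring }
    have h1 : yf = 0 := hN.surj yf hAm hB
    funext i
    have h2 := LinearMap.congr_fun h1 (Pi.single i 1)
    simp only [yf, LinearMap.coe_mk, AddHom.coe_mk, LinearMap.zero_apply] at h2
    simpa [Pi.single_apply] using h2
  · intro i _
    apply LinearMap.ext
    intro p
    rw [hrow, hrow, ← Nat.add_assoc, hys]
  · apply LinearMap.ext
    intro p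
    rw [hrow, hN2 (m + N) (by omega)]
    simp

/-- either a chain exists, or the pencil is square with nonzero determinant -/
theorem trichotomy {t s : ℕ} {A B : (Fin t → k) →ₗ[k] (Fin s → k)} (hN : ND A B) :
    (∃ n, Q (op A) (op B) n) ∨ (∃ n, Q (op A).dualMap (op B).dualMap n) ∨
      (∃ h : t = s, ∀ v : Fin t → k[X], (pen A B).mulVec v = 0 → v = 0) := by
  by_cases h1 : ∀ v : Fin t → k[X], (pen A B).mulVec v = 0 → v = 0
  · by_cases h2 : ∀ w : Fin s → k[X], (pen A B).vecMul w = 0 → w = 0
    · right; right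
      have e1 : t ≤ s := by
        have := card_le_of_injective k[X] (pen A B).mulVecLin (by
          rw [← LinearMap.ker_eq_bot, LinearMap.ker_eq_bot']
          exact h1)
        simpa using this
      have e2 : s ≤ t := by
        have := card_le_of_injective k[X] (pen A B).vecMulLinear (by
          rw [← LinearMap.ker_eq_bot, LinearMap.ker_eq_bot']
          exact h2)
        simpa using this
      exact ⟨le_antisymm e1 e2, h1⟩
    · push Not at h2
      obtain ⟨w, hw1, hw2⟩ := h2
      right; left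
      exact Qd_of_ker hN hw2 hw1
  · push Not at h1
    obtain ⟨v, hv1, hv2⟩ := h1
    left
    exact Q_of_ker hN hv2 hv1

end Pool.Agent.H471R2.Kr
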