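import Pool.Agent.H471R2.Kr.Norm
set_option autoImplicit false
set_option linter.all false

open Polynomial

namespace Pool.Agent.H471R2.Kr

/-- Fitting: an equivariant endomorphism of an indecomposable finite module is nilpotent or
has a power which is the identity. -/
theorem fitting {M : Type*} [AddCommGroup M] [Module k M] [Finite M] {a b : M →ₗ[k] M}
    (hM : Ind a b) (u : Module.End k M) (ua : ∀ x, u (a x) = a (u x)) (ub : ∀ x, u (b x) = b (u x)) :
    ∃ m : ℕ, 1 ≤ m ∧ (u ^ m = 0 ∨ u ^ m = 1) := by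
  haveI : Finite (Module.End k M) := DFunLike.finite _
  obtain ⟨i, j, hij, h⟩ := Finite.exists_ne_map_eq_of_infinite (fun n : ℕ => u ^ n)
  obtain ⟨i, p, hp, h⟩ : ∃ i p : ℕ, 1 ≤ p ∧ u ^ (i + p) = u ^ i := by
    rcases lt_or_gt_of_ne hij with h1 | h1
    · exact ⟨i, j - i, by omega, by rw [Nat.add_sub_cancel' h1.le]; exact h.symm⟩
    · exact ⟨j, i - j, by omega, by rw [Nat.add_sub_cancel' h1.le]; exact h⟩
  have h2 : ∀ n l, i ≤ n → u ^ (n + p * l) = u ^ n := by
    intro n l hn
    induction l with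
    | zero => simp
    | succ l ih =>
      have e : n + p * (l + 1) = (n - i + p * l) + (i + p) := by
        have : p * (l + 1) = p * l + p := by ring
        omega
      rw [e, pow_add, h, ← pow_add]
      have e2 : n - i + p * l + i = n + p * l := by omega
      rw [e2, ih]
  set m := p * (i + 1) with hm
  have hmi : i ≤ m := by
    have : 1 * (i + 1) ≤ p * (i + 1) := Nat.mul_le_mul_right _ hp
    omega
  have hm1 : 1 ≤ m := Nat.mul_pos hp (Nat.succ_pos i)
  have hid : u ^ m * u ^ m = u ^ m := by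
    rw [← pow_add]
    exact h2 m (i + 1) hmi
  have hcomm : ∀ (c : M →ₗ[k] M), (∀ x, u (c x) = c (u x)) → ∀ n x, (u ^ n) (c x) = c ((u ^ n) x) := by
    intro c hc n
    induction n with
    | zero => intro x; rfl
    | succ n ih =>
      intro x
      rw [pow_succ, Module.End.mul_apply, Module.End.mul_apply, hc, ih]
  refine ⟨m, hm1, ?_⟩
  rcases hM.2 (u ^ m) (hcomm a ua m) (hcomm b ub m) (fun x => by
    have := LinearMap.congr_fun hid x
    exact this) with h0 | h0
  · left; ext x; exact h0 x
  · right; ext x; exact h0 x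

/-- for an endomorphism `u`, either `u` or `1 - u` is injective -/
theorem local_ring {M : Type*} [AddCommGroup M] [Module k M] [Finite M] {a b : M →ₗ[k] M}
    (hM : Ind a b) (u v : Module.End k M) (ua : ∀ x, u (a x) = a (u x)) (ub : ∀ x, u (b x) = b (u x))
    (huv : ∀ x, u x + v x = x) : Function.Injective u ∨ Function.Injective v := by
  obtain ⟨m, hm, h | h⟩ := fitting hM u ua ub
  · right
    have hv : v = 1 - u := by
      ext x
      rw [LinearMap.sub_apply, Module.End.one_apply]
      have := huv x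
      exact eq_sub_of_add_eq' this
    have hu : IsUnit v := by
      rw [hv]
      exact IsNilpotent.isUnit_one_sub ⟨m, h⟩
    exact ((Module.End.isUnit_iff v).1 hu).1
  · left
    have hu : IsUnit u := by
      obtain ⟨m', rfl⟩ : ∃ m', m = m' + 1 := ⟨m - 1, by omega⟩
      have h1 : u * u ^ m' = 1 := by rw [← pow_succ']; exact h
      have h2 : u ^ m' * u = 1 := by rw [← pow_succ]; exact h
      exact ⟨⟨u, u ^ m', h1, h2⟩, rfl⟩
    exact ((Module.End.isUnit_iff u).1 hu).1

theorem map_coeff_pen_mul {t : ℕ} (A B : (Fin t → k) →ₗ[k] (Fin t → k)) (R : Matrix (Fin t) (Fin t) k[X])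
    (n : ℕ) : (pen A B * R).map (fun p => p.coeff n) =
      LinearMap.toMatrix' A * R.map (fun p => p.coeff n) +
      LinearMap.toMatrix' B * (R.map (fun p => (X * p).coeff n)) := by
  ext i j
  simp only [Matrix.map_apply, Matrix.mul_apply, Matrix.add_apply, pen, finset_sum_coeff, add_mul,
    coeff_add, Finset.sum_add_distrib, coeff_C_mul]
  congr 1
  apply Finset.sum_congr rfl
  intro l _
  rw [mul_comm X (C _), mul_assoc, coeff_C_mul]

theorem map_coeff_mul_pen {t : ℕ} (A B : (Fin t → k) →ₗ[k] (Fin t → k)) (R : Matrix (Fin t) (Fin t) k[X])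
    (n : ℕ) : (R * pen A B).map (fun p => p.coeff n) =
      R.map (fun p => p.coeff n) * LinearMap.toMatrix' A +
      (R.map (fun p => (X * p).coeff n)) * LinearMap.toMatrix' B := by
  ext i j
  simp only [Matrix.map_apply, Matrix.mul_apply, Matrix.add_apply, pen, finset_sum_coeff, mul_add,
    coeff_add, Finset.sum_add_distrib, coeff_mul_C]
  congr 1
  apply Finset.sum_congr rfl
  intro l _
  rw [← mul_assoc, coeff_mul_C, mul_comm X]

theorem reg_AB {t : ℕ} {A B : (Fin t → k) →ₗ[k] (Fin t → k)} (hM : Ind (op A) (op B))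
    (h : ∀ v : Fin t → k[X], (pen A B).mulVec v = 0 → v = 0) :
    Function.Injective A ∨ Function.Injective B := by
  classical
  set P := pen A B with hP
  have hdet : P.det ≠ 0 := by
    intro h0
    obtain ⟨v, hv1, hv2⟩ := Matrix.exists_mulVec_eq_zero_iff.2 h0
    exact hv1 (h v hv2)
  obtain ⟨n, hn⟩ : ∃ n, P.det.coeff n ≠ 0 := by
    by_contra hcon
    push Not at hcon
    exact hdet (Polynomial.ext hcon)
  have hn1 : P.det.coeff n = 1 := by
    rcases k_cases (P.det.coeff n) with h0 | h0
    · exact absurd h0 hn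
    · exact h0
  set R := P.adjugate with hR
  let Qm : ℕ → Matrix (Fin t) (Fin t) k := fun i => R.map (fun p => p.coeff i)
  let Qx : ℕ → Matrix (Fin t) (Fin t) k := fun i => R.map (fun p => (X * p).coeff i)
  have hQx : ∀ i, Qx (i + 1) = Qm i := by
    intro i
    ext r c
    simp [Qx, Qm, coeff_X_mul]
  have e1 : ∀ i, LinearMap.toMatrix' A * Qm i + LinearMap.toMatrix' B * Qx i =
      P.det.coeff i • (1 : Matrix (Fin t) (Fin t) k) := by
    intro i
    rw [← map_coeff_pen_mul, ← hP, Matrix.mul_adjugate]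
    ext r c
    simp only [Matrix.map_apply, Matrix.smul_apply, Matrix.one_apply, smul_eq_mul]
    split_ifs <;> simp
  have e2 : ∀ i, Qm i * LinearMap.toMatrix' A + Qx i * LinearMap.toMatrix' B =
      P.det.coeff i • (1 : Matrix (Fin t) (Fin t) k) := by
    intro i
    rw [← map_coeff_mul_pen, ← hP, Matrix.adjugate_mul]
    ext r c
    simp only [Matrix.map_apply, Matrix.smul_apply, Matrix.one_apply, smul_eq_mul]
    split_ifs <;> simp
  -- as linear maps
  let q : (Fin t → k) →ₗ[k] (Fin t → k) := Matrix.toLin' (Qm n)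
  let q' : (Fin t → k) →ₗ[k] (Fin t → k) := Matrix.toLin' (Qx n)
  have f1 : ∀ x, A (q x) + B (q' x) = x := by
    intro x
    have := congrArg (fun Z => Matrix.toLin' Z x) (e1 n)
    simp only [map_add, Matrix.toLin'_mul, Matrix.toLin'_toMatrix', LinearMap.add_apply,
      LinearMap.comp_apply, hn1, one_smul, Matrix.toLin'_one, LinearMap.id_apply] at this
    exact this
  have f2 : ∀ x, q (A x) + q' (B x) = x := by
    intro x
    have := congrArg (fun Z => Matrix.toLin' Z x) (e2 n)
    simp only [map_add, Matrix.toLin'_mul, Matrix.toLin'_toMatrix', LinearMap.add_apply,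
      LinearMap.comp_apply, hn1, one_smul, Matrix.toLin'_one, LinearMap.id_apply] at this
    exact this
  have f3 : ∀ x, A (q (B x)) = B (q (A x)) := by
    intro x
    have g1 := congrArg (fun Z => A (Matrix.toLin' Z x)) (e2 (n + 1))
    have g2 := congrArg (fun Z => Matrix.toLin' Z (A x)) (e1 (n + 1))
    rw [hQx] at g1 g2
    simp only [map_add, Matrix.toLin'_mul, Matrix.toLin'_toMatrix', LinearMap.add_apply,
      LinearMap.comp_apply, map_smul, LinearMap.smul_apply, Matrix.toLin'_one, LinearMap.id_apply] at g1 g2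
    rw [← g2] at g1
    exact add_left_cancel g1
  let u : Module.End k ((Fin t → k) × (Fin t → k)) := LinearMap.prodMap (q ∘ₗ A) (A ∘ₗ q)
  let v : Module.End k ((Fin t → k) × (Fin t → k)) := LinearMap.prodMap (q' ∘ₗ B) (B ∘ₗ q')
  have hu : ∀ p, u p = (q (A p.1), A (q p.2)) := fun p => rfl
  have hv : ∀ p, v p = (q' (B p.1), B (q' p.2)) := fun p => rfl
  rcases local_ring hM u v (by
    intro p
    rw [hu, hu, op_apply, op_apply]; simp) (by
    intro p
    rw [hu, hu, op_apply, op_apply]; simp [f3]) (by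
    intro p
    rw [hu, hv]
    exact Prod.ext (f2 p.1) (f1 p.2)) with h1 | h1
  · left
    intro x y hxy
    have : u (x, 0) = u (y, 0) := by rw [hu, hu]; simp [hxy]
    exact congrArg Prod.fst (h1 this)
  · right
    intro x y hxy
    have : v (x, 0) = v (y, 0) := by rw [hv, hv]; simp [hxy]
    exact congrArg Prod.fst (h1 this)

/-- normalise `A = 1` -/
theorem norm_A {t : ℕ} {A B : (Fin t → k) →ₗ[k] (Fin t → k)} (hA : Function.Injective A) :
    ∃ Y : (Fin t → k) →ₗ[k] (Fin t → k), Iso (op A) (op B) (op LinearMap.id) (op Y) := by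
  let e : (Fin t → k) ≃ₗ[k] (Fin t → k) := LinearEquiv.ofBijective A
    (Finite.injective_iff_bijective.1 hA)
  have he : ∀ x, e.symm (A x) = x := fun x => e.symm_apply_apply x
  refine ⟨e.symm.toLinearMap ∘ₗ B, (LinearEquiv.refl k _).prodCongr e.symm, ?_, ?_⟩
  · intro p
    refine Prod.ext ?_ ?_
    · simp
    · simp [he]
  · intro p
    refine Prod.ext ?_ ?_
    · simp
    · simp

/-- the regular module attached to a polynomial -/
noncomputable def mulX (f : k[X]) : (k[X] ⧸ (Ideal.span {f})) →ₗ[k] (k[X] ⧸ (Ideal.span {f})) :=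
  LinearMap.mulLeft k (Ideal.Quotient.mk (Ideal.span {f}) X)

theorem mulX_mk (f g : k[X]) : mulX f (Ideal.Quotient.mk _ g) = Ideal.Quotient.mk _ (X * g) := rfl

theorem cyclic {t : ℕ} {Y : (Fin t → k) →ₗ[k] (Fin t → k)} (hM : Ind (op LinearMap.id) (op Y)) :
    ∃ (p : k[X]) (n : ℕ), Irreducible p ∧ 1 ≤ n ∧
      Iso (op LinearMap.id) (op Y) (op (LinearMap.id : (k[X] ⧸ (Ideal.span {p ^ n})) →ₗ[k] _))
        (op (mulX (p ^ n))) := by
  classical
  obtain ⟨ι, hι, p, hp, e, ⟨E⟩⟩ := Module.equiv_directSum_of_isTorsion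
    (Module.AEval.isTorsion_of_finiteDimensional (K := k) (M := Fin t → k) (a := (Y : Module.End k (Fin t → k))))
  let oN : (Fin t → k) ≃ₗ[k] Module.AEval k (Fin t → k) (Y : Module.End k (Fin t → k)) :=
    Module.AEval.of k (Fin t → k) Y
  have hX : ∀ x, (X : k[X]) • oN x = oN (Y x) := fun x => Module.AEval.X_smul_of (a := (Y : Module.End k (Fin t → k))) x
  let G : ∀ i, Module.AEval k (Fin t → k) (Y : Module.End k (Fin t → k)) →ₗ[k[X]]
      (k[X] ⧸ (k[X] ∙ p i ^ e i)) := fun i => (DirectSum.component k[X] ι (fun i => k[X] ⧸ (k[X] ∙ p i ^ e i)) i) ∘ₗ E.toLinearMap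
  let s : ∀ i, (k[X] ⧸ (k[X] ∙ p i ^ e i)) →ₗ[k[X]]
      Module.AEval k (Fin t → k) (Y : Module.End k (Fin t → k)) :=
    fun i => E.symm.toLinearMap ∘ₗ DirectSum.lof k[X] ι (fun i => k[X] ⧸ (k[X] ∙ p i ^ e i)) i
  have hGs : ∀ i y, G i (s i y) = y := by
    intro i y
    simp only [G, s, LinearMap.comp_apply, LinearEquiv.coe_coe, LinearEquiv.apply_symm_apply]
    exact DirectSum.component.lof_self (M := fun i => k[X] ⧸ (k[X] ∙ p i ^ e i)) k[X] i y
  let eI : ι → ((Fin t → k) →ₗ[k] (Fin t → k)) := fun i =>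
    (AddMonoidHom.toZModLinearMap 2 (oN.symm.toLinearMap.toAddMonoidHom.comp
      (((s i).toAddMonoidHom.comp (G i).toAddMonoidHom).comp oN.toLinearMap.toAddMonoidHom)))
  have heI : ∀ i x, eI i x = oN.symm (s i (G i (oN x))) := fun i x => rfl
  have hcomm : ∀ i x, eI i (Y x) = Y (eI i x) := by
    intro i x
    rw [heI, heI, ← hX, map_smul, map_smul]
    apply oN.injective
    rw [LinearEquiv.apply_symm_apply, ← hX, LinearEquiv.apply_symm_apply]
  have hidem : ∀ i x, eI i (eI i x) = eI i x := by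
    intro i x
    rw [heI, heI, LinearEquiv.apply_symm_apply, hGs]
  have hdich : ∀ i, (∀ x, eI i x = 0) ∨ (∀ x, eI i x = x) := by
    intro i
    rcases hM.2 (LinearMap.prodMap (eI i) (eI i)) (by
      intro x
      refine Prod.ext ?_ ?_ <;> simp) (by
      intro x
      refine Prod.ext ?_ ?_ <;> simp [hcomm]) (by
      intro x
      refine Prod.ext ?_ ?_ <;> simp [hidem]) with h | h
    · left
      intro x
      exact congrArg Prod.fst (h (x, 0))
    · right
      intro x
      exact congrArg Prod.fst (h (x, 0))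
  have hsum : ∀ x, ∑ i, eI i x = x := by
    intro x
    simp only [heI]
    rw [← map_sum]
    apply oN.injective
    rw [LinearEquiv.apply_symm_apply]
    simp only [G, s, LinearMap.comp_apply, LinearEquiv.coe_coe]
    rw [← map_sum]
    apply E.injective
    rw [LinearEquiv.apply_symm_apply]
    exact DirectSum.sum_univ_of (E (oN x))
  obtain ⟨x0, hx0⟩ : ∃ x : Fin t → k, x ≠ 0 := by
    haveI := hM.1
    obtain ⟨z, hz⟩ := exists_ne (0 : (Fin t → k) × (Fin t → k))
    by_contra hcon
    push Not at hcon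
    apply hz
    exact Prod.ext (hcon _) (hcon _)
  obtain ⟨i, hi⟩ : ∃ i, ∀ x, eI i x = x := by
    by_contra hcon
    push Not at hcon
    apply hx0
    rw [← hsum x0]
    apply Finset.sum_eq_zero
    intro i _
    rcases hdich i with h | h
    · exact h x0
    · obtain ⟨x, hx⟩ := hcon i
      exact absurd (h x) hx
  have hGinj : Function.Injective (G i) := by
    intro x y hxy
    have h1 := hi (oN.symm x)
    have h2 := hi (oN.symm y)
    rw [heI, LinearEquiv.apply_symm_apply] at h1 h2
    rw [hxy, h2] at h1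
    exact (oN.symm.injective h1).symm
  have hGsurj : Function.Surjective (G i) := fun y => ⟨s i y, hGs i y⟩
  have hei : 1 ≤ e i := by
    by_contra h0
    have h1 : e i = 0 := by omega
    apply hx0
    have h2 : G i (oN x0) = 0 := by
      obtain ⟨g, hg⟩ := Submodule.Quotient.mk_surjective _ (G i (oN x0))
      rw [← hg, Submodule.Quotient.mk_eq_zero, h1, pow_zero]
      exact Submodule.mem_span_singleton.2 ⟨g, by simp⟩
    have h3 : oN x0 = 0 := hGinj (by rw [h2, map_zero])
    exact oN.map_eq_zero_iff.1 h3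
  refine ⟨p i, e i, hp i, hei, ?_⟩
  let F : (Fin t → k) →+ (k[X] ⧸ (Ideal.span {p i ^ e i})) :=
    (G i).toAddMonoidHom.comp oN.toLinearMap.toAddMonoidHom
  have hF : ∀ x, F x = G i (oN x) := fun x => rfl
  have hFbij : Function.Bijective (AddMonoidHom.toZModLinearMap 2 F) := by
    constructor
    · intro x y hxy
      exact oN.injective (hGinj hxy)
    · intro y
      obtain ⟨z, hz⟩ := hGsurj y
      exact ⟨oN.symm z, by
        change G i (oN (oN.symm z)) = y
        rw [LinearEquiv.apply_symm_apply]; exact hz⟩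
  let e' := LinearEquiv.ofBijective _ hFbij
  have he' : ∀ x, e' x = G i (oN x) := fun x => rfl
  have hmul : ∀ x, e' (Y x) = mulX (p i ^ e i) (e' x) := by
    intro x
    rw [he', he', ← hX, map_smul]
    obtain ⟨g, hg⟩ := Ideal.Quotient.mk_surjective (I := Ideal.span {p i ^ e i}) (G i (oN x))
    rw [← hg, mulX_mk]
    rfl
  refine ⟨e'.prodCongr e', ?_, ?_⟩
  · intro x
    refine Prod.ext ?_ ?_
    · simp
    · simp
  · intro x
    refine Prod.ext ?_ ?_
    · simp
    · simp [hmul]

end Pool.Agent.H471R2.Kr
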